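import Pool.Agent.Lib.MP_b5021c_nt.IfaceB

/-!
# Board b5, module C3C: the Hurwitz principle
-/

namespace Pool.Agent.B5.H16

open scoped LaurentPolynomial

section

variable {O : Type} [CommRing O] [IsDomain O] [IsPrincipalIdealRing O] [Coef O]
  {L : Type} [AddCommGroup L] [Module.Free ℤ L] [Module.Finite ℤ L]

open Classical in
theorem c3_gpart_coeff (lam : L →+ ℤ) (c : ℤ) (G : AO O L) (a : L) :
    (gpart lam c G).coeff a = if lam a = c then G.coeff a else 0 := by
  unfold gpart
  rw [AddMonoidAlgebra.coeff_ofCoeff, Finsupp.filter_apply]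

theorem c3_eq_sum (lam : L →+ ℤ) (G : AO O L) :
    G = ∑ c ∈ G.coeff.support.image lam, gpart lam c G := by
  classical
  apply AddMonoidAlgebra.ext
  apply Finsupp.ext
  intro a
  rw [AddMonoidAlgebra.coeff_sum, Finsupp.finsetSum_apply]
  simp_rw [c3_gpart_coeff]
  rw [Finset.sum_ite_eq]
  split_ifs with h
  · rfl
  · by_contra h2
    apply h
    rw [Finset.mem_image]
    exact ⟨a, Finsupp.mem_support_iff.2 (fun h3 => h2 (by rw [h3])), rfl⟩

theorem ev_bound (z : Circle) (k : AO O L) :
    ∃ K : ℝ, 0 ≤ K ∧ ∀ u : AddChar L Circle, ‖ev z u k‖ ≤ K := by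
  refine ⟨∑ a ∈ (spec z k).coeff.support, ‖(spec z k).coeff a‖,
    Finset.sum_nonneg fun _ _ => norm_nonneg _, fun u => ?_⟩
  change ‖evC u (spec z k)‖ ≤ _
  rw [evC_apply, Finsupp.sum]
  refine (norm_sum_le _ _).trans (Finset.sum_le_sum fun a _ => ?_)
  rw [norm_mul, Circle.norm_coe, mul_one]

theorem not_unit_of_wdep (hU : UnitAS) {h : AO O L} (hw : Wdep h) : ¬ IsUnit h := by
  classical
  intro hu
  obtain ⟨a, c, -, rfl⟩ := (hU O L h).1 hu
  obtain ⟨x, hx, y, hy, hxy⟩ := hw
  have h1 : ∀ x : L, x ∈ supp (AddMonoidAlgebra.single a c : AO O L) → x = a := by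
    intro x hx
    by_contra hne
    apply hx
    change (Finsupp.single a c) x = 0
    rw [Finsupp.single_apply, if_neg (fun h => hne h.symm)]
  exact hxy ((h1 x hx).trans (h1 y hy).symm)

end

theorem c3 (hB2 : B2S) (hC1 : C1S) (hB4 : B4S) (hU : UnitAS) (hF : FaceS) : C3S := by
  intro O _ _ _ _ L _ _ _ G h lam mu hirr hst hnn hfull hprim hwd hdvd
  obtain ⟨k, hk⟩ := hdvd
  obtain ⟨C, hC, hb⟩ := hB2 O L G lam hst hnn
  have h1 : ∀ c : ℤ, h ∣ gpart lam c G := by
    intro c
    apply hC1 O L h (gpart lam c G) mu hfull hprim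
    have he : {z : Circle | ¬ ∃ C : ℝ, ∀ u : AddChar L Circle,
        ‖ev z u (gpart lam c G)‖ ≤ C * ‖ev z u h‖} = ∅ := by
      rw [Set.eq_empty_iff_forall_notMem]
      intro z hz
      apply hz
      obtain ⟨K, hK0, hK⟩ := ev_bound z k
      refine ⟨C * K, fun u => ?_⟩
      have h2 := hb c z u
      rw [hk, map_mul, norm_mul] at h2
      refine h2.trans ?_
      have h3 := hK u
      have h4 := norm_nonneg (ev z u h)
      calc C * (‖ev z u h‖ * ‖ev z u k‖) ≤ C * (‖ev z u h‖ * K) := by gcongr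
        _ = C * K * ‖ev z u h‖ := by ring
    rw [he]
    exact Set.finite_empty
  have h2 : h ∣ G := by
    rw [c3_eq_sum lam G]
    exact Finset.dvd_sum fun c _ => h1 c
  obtain ⟨w, hw⟩ := h2
  have hnu := not_unit_of_wdep hU hwd
  have hwu : IsUnit w := (hirr.isUnit_or_isUnit hw).resolve_left hnu
  obtain ⟨wu, hwu'⟩ := hwu
  refine ⟨⟨wu⁻¹, ?_⟩, ?_⟩
  · rw [hw, ← hwu', mul_assoc, Units.mul_inv, mul_one]
  · have hV : Stable (gpart lam 0 G) := (hF O L G lam hst hnn).1
    obtain ⟨b, -, -, hb4⟩ := hB4 O L (gpart lam 0 G) h k hV hk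
    have hz : ∀ a ∈ (gpart lam 0 G).coeff.support, lam a = 0 := by
      classical
      intro a ha
      rw [Finsupp.mem_support_iff, c3_gpart_coeff] at ha
      by_contra hne
      rw [if_neg hne] at ha
      exact ha rfl
    have hp := ((hb4 lam).1 (fun a ha => (hz a ha).ge)).1
    have hm := ((hb4 (-lam)).1 (fun a ha => by
      change 0 ≤ - lam a
      rw [hz a ha]; simp)).1
    -- lam is constant on the support of h
    have hconst : ∀ a ∈ supp h, lam a = - lam b := by
      intro a ha
      have hmem : b + a ∈ (mon b * h).coeff.support := by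
        rw [Finsupp.mem_support_iff]
        unfold mon
        rw [AddMonoidAlgebra.coeff_single_mul_apply]
        rw [one_mul, neg_add_cancel_left]
        exact ha
      have h5 := hp _ hmem
      have h6 := hm _ hmem
      rw [map_add] at h5
      have h7 : (0 : ℤ) ≤ - lam (b + a) := h6
      rw [map_add] at h7
      linarith
    obtain ⟨a0, c0, hc0, hw0⟩ := (hU O L w).1 ⟨wu, hwu'⟩
    have hsupp : ∀ a ∈ supp G, a - a0 ∈ supp h := by
      intro a ha
      have : G.coeff a = h.coeff (a - a0) * c0 := by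
        rw [hw, hw0, AddMonoidAlgebra.coeff_mul_single_apply]
        rw [sub_eq_add_neg]
      intro h0
      apply ha
      rw [this, h0, zero_mul]
    have hG : ∀ a ∈ supp G, lam a = lam a0 - lam b := by
      intro a ha
      have := hconst _ (hsupp a ha)
      rw [map_sub] at this
      linarith
    have h0 : (0 : L) ∈ supp G := hst.1
    intro a ha
    rw [hG a ha, ← hG 0 h0, map_zero]

end Pool.Agent.B5.H16
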