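import Pool.Agent.Lib.MP_b5021c_nt.IfaceG
import Pool.Agent.Lib.MP_b5021c_nt.B.H36.Evr

/-!
# Board b5, module H2C: case A and case B are impossible
-/

namespace Pool.Agent.B5.H16

open scoped LaurentPolynomial

/-- The block of ports of `a`. -/
def blk {P : Type} [Fintype P] [DecidableEq P] {L : Type} [AddCommGroup L] (phi : L →+ (P → ℤ))
    (a : L) : Finset P := Finset.univ.filter fun i => phi a i = 1

theorem sum_fin3 (f : Finset (Fin 3) → ℂ) : ∑ I : Finset (Fin 3), f I =
    f ∅ + f {0} + f {1} + f {2} + f {0, 1} + f {0, 2} + f {1, 2} + f {0, 1, 2} := by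
  have h : (Finset.univ : Finset (Finset (Fin 3))) =
      {∅, {0}, {1}, {2}, {0, 1}, {0, 2}, {1, 2}, {0, 1, 2}} := by decide
  rw [h]
  rw [Finset.sum_insert (by decide), Finset.sum_insert (by decide), Finset.sum_insert (by decide),
    Finset.sum_insert (by decide), Finset.sum_insert (by decide), Finset.sum_insert (by decide),
    Finset.sum_insert (by decide), Finset.sum_singleton]
  ring

section

variable {O : Type} [CommRing O] [IsDomain O] [IsPrincipalIdealRing O] [Coef O]
  {P L : Type} [Fintype P] [DecidableEq P] [AddCommGroup L] [Module.Free ℤ L]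
  [Module.Finite ℤ L] {phi : L →+ (P → ℤ)} {D : AO O L} {S a b : L}

theorem ne_of_bin {a : L} (hinj : Function.Injective phi) (ha : Bin phi a) (h0 : a ≠ 0) :
    (blk phi a).Nonempty := by
  by_contra h
  rw [Finset.not_nonempty_iff_eq_empty] at h
  apply h0
  apply hinj
  rw [map_zero]
  funext i
  rcases ha i with h1 | h1
  · simpa using h1
  · exfalso
    have : i ∈ blk phi a := by simp [blk, h1]
    rw [h] at this
    exact absurd this (Finset.notMem_empty i)

/-- The polynomial in the three blocks `a`, `b`, `S - a - b`. -/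
theorem three (hA : AsanoS) (hP : PolyS) (hD : DD phi D) (hS : Bin phi S) (ha : Bin phi a)
    (hb : Bin phi b) (hm : Bin phi (S - a - b)) (ha0 : a ≠ 0) (hb0 : b ≠ 0) (hab : a + b ≠ S)
    (z : Circle) (hz : evR z (D.coeff 0) ≠ 0) (x y t : ℂ) (hx : ‖x‖ < 1) (hy : ‖y‖ < 1)
    (ht : ‖t‖ < 1) :
    evR z (D.coeff 0) + evR z (D.coeff a) * x + evR z (D.coeff b) * y +
      evR z (D.coeff (S - a - b)) * t + evR z (D.coeff (a + b)) * (x * y) +
      evR z (D.coeff (S - b)) * (x * t) + evR z (D.coeff (S - a)) * (y * t) +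
      evR z (D.coeff S) * (x * y * t) ≠ 0 := by
  obtain ⟨h1, h2⟩ := hP O P L phi D hD.inj hD.bin hD.st z hz
  have key : ∀ i : P, (phi a i = 0 ∨ phi a i = 1) ∧ (phi b i = 0 ∨ phi b i = 1) ∧
      (phi S i = 0 ∨ phi S i = 1) ∧
      (phi S i - phi a i - phi b i = 0 ∨ phi S i - phi a i - phi b i = 1) := by
    intro i
    refine ⟨ha i, hb i, hS i, ?_⟩
    have := hm i
    simpa [map_sub] using this
  have dab : Disjoint (blk phi a) (blk phi b) := by
    rw [Finset.disjoint_left]
    intro p hp hq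
    obtain ⟨k1, k2, k3, k4⟩ := key p
    simp only [blk, Finset.mem_filter, Finset.mem_univ, true_and] at hp hq
    omega
  have dam : Disjoint (blk phi a) (blk phi (S - a - b)) := by
    rw [Finset.disjoint_left]
    intro p hp hq
    obtain ⟨k1, k2, k3, k4⟩ := key p
    simp only [blk, Finset.mem_filter, Finset.mem_univ, true_and, map_sub, Pi.sub_apply] at hp hq
    omega
  have dbm : Disjoint (blk phi b) (blk phi (S - a - b)) := by
    rw [Finset.disjoint_left]
    intro p hp hq
    obtain ⟨k1, k2, k3, k4⟩ := key p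
    simp only [blk, Finset.mem_filter, Finset.mem_univ, true_and, map_sub, Pi.sub_apply] at hp hq
    omega
  have h3 := hA P (cfz phi z D) h1 3 ![blk phi a, blk phi b, blk phi (S - a - b)] (by
    intro i j hij
    fin_cases i <;> fin_cases j
    · exact absurd rfl hij
    · exact dab
    · exact dam
    · exact dab.symm
    · exact absurd rfl hij
    · exact dbm
    · exact dam.symm
    · exact dbm.symm
    · exact absurd rfl hij) (by
    intro i
    fin_cases i
    · exact ne_of_bin hD.inj ha ha0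
    · exact ne_of_bin hD.inj hb hb0
    · refine ne_of_bin hD.inj hm ?_
      intro h
      apply hab
      have : S = a + b := by
        have h5 : S - a - b = S - (a + b) := by abel
        rw [h5] at h
        exact sub_eq_zero.1 h
      exact this.symm) ![x, y, t] (by
    intro i
    fin_cases i
    · exact hx
    · exact hy
    · exact ht)
  rw [sum_fin3] at h3
  have c0 : cfz phi z D ((∅ : Finset (Fin 3)).biUnion ![blk phi a, blk phi b, blk phi (S - a - b)]) =
      evR z (D.coeff 0) := by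
    apply h2
    intro i
    simp
  have c1 : cfz phi z D (({0} : Finset (Fin 3)).biUnion ![blk phi a, blk phi b, blk phi (S - a - b)]) =
      evR z (D.coeff a) := by
    apply h2
    intro i
    obtain ⟨k1, k2, k3, k4⟩ := key i
    simp only [Finset.singleton_biUnion, Matrix.cons_val_zero, blk, Finset.mem_filter,
      Finset.mem_univ, true_and]
    split_ifs <;> omega
  have c2 : cfz phi z D (({1} : Finset (Fin 3)).biUnion ![blk phi a, blk phi b, blk phi (S - a - b)]) =
      evR z (D.coeff b) := by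
    apply h2
    intro i
    obtain ⟨k1, k2, k3, k4⟩ := key i
    simp only [Finset.singleton_biUnion, Matrix.cons_val_one, Matrix.cons_val_zero, blk, Finset.mem_filter,
      Finset.mem_univ, true_and]
    split_ifs <;> omega
  have c3 : cfz phi z D (({2} : Finset (Fin 3)).biUnion ![blk phi a, blk phi b, blk phi (S - a - b)]) =
      evR z (D.coeff (S - a - b)) := by
    apply h2
    intro i
    obtain ⟨k1, k2, k3, k4⟩ := key i
    simp only [Finset.singleton_biUnion, Matrix.cons_val, blk, Finset.mem_filter,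
      Finset.mem_univ, true_and, map_sub, Pi.sub_apply]
    split_ifs <;> omega
  have c4 : cfz phi z D (({0, 1} : Finset (Fin 3)).biUnion ![blk phi a, blk phi b, blk phi (S - a - b)]) =
      evR z (D.coeff (a + b)) := by
    apply h2
    intro i
    obtain ⟨k1, k2, k3, k4⟩ := key i
    simp only [Finset.biUnion_insert, Finset.singleton_biUnion, Matrix.cons_val, blk,
      Finset.mem_union, Finset.mem_filter,
      Finset.mem_univ, true_and, map_sub, map_add, Pi.sub_apply, Pi.add_apply]
    split_ifs <;> omega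
  have c5 : cfz phi z D (({0, 2} : Finset (Fin 3)).biUnion ![blk phi a, blk phi b, blk phi (S - a - b)]) =
      evR z (D.coeff (S - b)) := by
    apply h2
    intro i
    obtain ⟨k1, k2, k3, k4⟩ := key i
    simp only [Finset.biUnion_insert, Finset.singleton_biUnion, Matrix.cons_val, blk,
      Finset.mem_union, Finset.mem_filter,
      Finset.mem_univ, true_and, map_sub, map_add, Pi.sub_apply, Pi.add_apply]
    split_ifs <;> omega
  have c6 : cfz phi z D (({1, 2} : Finset (Fin 3)).biUnion ![blk phi a, blk phi b, blk phi (S - a - b)]) =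
      evR z (D.coeff (S - a)) := by
    apply h2
    intro i
    obtain ⟨k1, k2, k3, k4⟩ := key i
    simp only [Finset.biUnion_insert, Finset.singleton_biUnion, Matrix.cons_val, blk,
      Finset.mem_union, Finset.mem_filter,
      Finset.mem_univ, true_and, map_sub, map_add, Pi.sub_apply, Pi.add_apply]
    split_ifs <;> omega
  have c7 : cfz phi z D (({0, 1, 2} : Finset (Fin 3)).biUnion ![blk phi a, blk phi b, blk phi (S - a - b)]) =
      evR z (D.coeff S) := by
    apply h2
    intro i
    obtain ⟨k1, k2, k3, k4⟩ := key i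
    simp only [Finset.biUnion_insert, Finset.singleton_biUnion, Matrix.cons_val, blk,
      Finset.mem_union, Finset.mem_filter,
      Finset.mem_univ, true_and, map_sub, map_add, Pi.sub_apply, Pi.add_apply]
    split_ifs <;> omega
  rw [c0, c1, c2, c3, c4, c5, c6, c7] at h3
  have p0 : ∏ i ∈ (∅ : Finset (Fin 3)), ![x, y, t] i = 1 := by simp
  have p1 : ∏ i ∈ ({0} : Finset (Fin 3)), ![x, y, t] i = x := by simp
  have p2 : ∏ i ∈ ({1} : Finset (Fin 3)), ![x, y, t] i = y := by simp
  have p3 : ∏ i ∈ ({2} : Finset (Fin 3)), ![x, y, t] i = t := by simp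
  have p4 : ∏ i ∈ ({0, 1} : Finset (Fin 3)), ![x, y, t] i = x * y := by
    rw [Finset.prod_insert (by decide), Finset.prod_singleton]; simp
  have p5 : ∏ i ∈ ({0, 2} : Finset (Fin 3)), ![x, y, t] i = x * t := by
    rw [Finset.prod_insert (by decide), Finset.prod_singleton]; simp
  have p6 : ∏ i ∈ ({1, 2} : Finset (Fin 3)), ![x, y, t] i = y * t := by
    rw [Finset.prod_insert (by decide), Finset.prod_singleton]; simp
  have p7 : ∏ i ∈ ({0, 1, 2} : Finset (Fin 3)), ![x, y, t] i = x * y * t := by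
    rw [Finset.prod_insert (by decide), Finset.prod_insert (by decide), Finset.prod_singleton]
    simp [mul_assoc]
  rw [p0, p1, p2, p3, p4, p5, p6, p7] at h3
  intro h
  apply h3
  rw [← h]
  ring

theorem inf_circle : Infinite Circle := by
  refine Infinite.of_injective (fun n : ℕ => Circle.exp (1 / ((n : ℝ) + 1))) ?_
  intro m n h
  have hpi : (1 : ℝ) < Real.pi := by linarith [Real.pi_gt_three]
  have hb : ∀ k : ℕ, -Real.pi < 1 / ((k : ℝ) + 1) ∧ 1 / ((k : ℝ) + 1) ≤ Real.pi := by
    intro k
    have h1 : (0 : ℝ) < 1 / ((k : ℝ) + 1) := by positivity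
    have h2 : 1 / ((k : ℝ) + 1) ≤ 1 := by
      rw [div_le_one (by positivity)]
      have : (0 : ℝ) ≤ (k : ℝ) := Nat.cast_nonneg k
      linarith
    constructor <;> linarith
  have h1 := congrArg (fun z : Circle => Complex.arg (z : ℂ)) h
  simp only at h1
  rw [Circle.arg_exp (hb m).1 (hb m).2, Circle.arg_exp (hb n).1 (hb n).2] at h1
  have h2 : (m : ℝ) + 1 = (n : ℝ) + 1 := by
    have h3 := congrArg (fun t : ℝ => 1 / t) h1
    simpa using h3
  have h4 : (m : ℝ) = (n : ℝ) := by linarith
  exact_mod_cast h4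

theorem exists_z (hZ : ZfinS) (p q r : RO O) (hp : p ≠ 0) (hq : q ≠ 0) (hr : r ≠ 0) :
    ∃ z : Circle, evR z p ≠ 0 ∧ evR z q ≠ 0 ∧ evR z r ≠ 0 := by
  have h1 := ((hZ O p hp).union (hZ O q hq)).union (hZ O r hr)
  have : Infinite Circle := inf_circle
  have h2 : (Set.univ : Set Circle).Infinite := Set.infinite_univ
  obtain ⟨z, -, hz⟩ := h2.exists_notMem_finite h1
  refine ⟨z, ?_, ?_, ?_⟩
  · intro h; exact hz (Or.inl (Or.inl h))
  · intro h; exact hz (Or.inl (Or.inr h))
  · intro h; exact hz (Or.inr h)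

end

theorem h2 (h3a : H3aS) (h3b : H3bS) (h2a : H2aS) (hA : AsanoS) (hP : PolyS) (hZ : ZfinS) : H2S := by
  intro O _ _ _ _ P L _ _ _ _ _ phi D S i0 eta hC
  have hSs : D.coeff S ≠ 0 := hC.ray.1
  have hS : Bin phi S := hC.dd.bin S hSs
  have hD0 : D.coeff 0 ≠ 0 := hC.dd.st.1
  have hn : ∀ (z : Circle) (u : (RO O)ˣ), ‖evR z (u : RO O)‖ = 1 := fun z u =>
    H36.norm_evR_unit z _ u.isUnit
  have hne : ∀ (z : Circle) (u : (RO O)ˣ), evR z (u : RO O) ≠ 0 := fun z u h => by
    have := hn z u
    rw [h, norm_zero] at this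
    exact zero_ne_one this
  refine ⟨?_, ?_⟩
  · rintro ⟨a, b, k, l, ha, hb, ha0, hb0, hab, hm, e1, e2, e3, e4, e5, e6⟩
    obtain ⟨z, hz1, hz2, hz3⟩ := exists_z hZ _ _ _ hC.v0 hSs hD0
    have T := three hA hP hC.dd hS ha hb hm ha0 hb0 hab z hz3
    rw [e1, e2, e3, e4, e5, e6] at T
    simp only [map_neg, map_mul, map_add, map_zero, zero_mul, add_zero, Units.val_mul] at T hz1
    set K := evR z (k : RO O) with hK
    set Lz := evR z (l : RO O) with hLz
    set E := evR z (eta : RO O) with hE
    set d0 := evR z (D.coeff 0) with hd0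
    set dS := evR z (D.coeff S) with hdS
    have K0 : K ≠ 0 := hne z k
    have L0 : Lz ≠ 0 := hne z l
    have E0 : E ≠ 0 := hne z eta
    have K1 : ‖K‖ = 1 := hn z k
    have L1 : ‖Lz‖ = 1 := hn z l
    have E1 : ‖E‖ = 1 := hn z eta
    have h5 := h2a (d0 + E * dS) (E * dS) (by
      intro x y s hx hy hs h
      refine T (x / K) (y / Lz) (s * (E * K * Lz)) ?_ ?_ ?_ ?_
      · rw [norm_div, K1, div_one]; exact hx
      · rw [norm_div, L1, div_one]; exact hy
      · rw [norm_mul, norm_mul, norm_mul, K1, L1, E1]; simpa using hs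
      · rw [← h]
        field_simp
        ring)
    obtain ⟨x, y, t, hx, hy, ht, h6⟩ := h3a (d0 + E * dS) (E * dS) hz1 (mul_ne_zero E0 hz2)
    exact h5 x y t hx hy ht h6
  · rintro ⟨a, b, k, l, ha, hb, ha0, hb0, hab, hm, e1, e2, e3, e4, e5, e6⟩
    obtain ⟨z, hz1, hz2, hz3⟩ := exists_z hZ _ _ _ hC.v0 hSs hD0
    have T := three hA hP hC.dd hS ha hb hm ha0 hb0 hab z hz3
    rw [e1, e2, e3, e4, e5, e6] at T
    simp only [map_neg, map_mul, map_add, map_zero, zero_mul, add_zero, Units.val_mul] at T hz1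
    set K := evR z (k : RO O) with hK
    set Lz := evR z (l : RO O) with hLz
    set E := evR z (eta : RO O) with hE
    set d0 := evR z (D.coeff 0) with hd0
    set dS := evR z (D.coeff S) with hdS
    have K0 : K ≠ 0 := hne z k
    have L0 : Lz ≠ 0 := hne z l
    have E0 : E ≠ 0 := hne z eta
    have K1 : ‖K‖ = 1 := hn z k
    have L1 : ‖Lz‖ = 1 := hn z l
    have E1 : ‖E‖ = 1 := hn z eta
    have h7 : ∀ x y : ℂ, ‖x‖ < 1 → ‖y‖ < 1 →
        ‖(d0 + E * dS) * (1 - x - y) + (E * dS) * (x * y)‖ ≤ ‖d0‖ := by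
      intro x y hx hy
      by_contra hlt
      rw [not_le] at hlt
      set W := (d0 + E * dS) * (1 - x - y) + (E * dS) * (x * y) with hW
      have hW0 : W ≠ 0 := by
        intro h
        rw [h, norm_zero] at hlt
        exact absurd hlt (not_lt.2 (norm_nonneg _))
      refine T (x * (K * E)) (y * (Lz * E)) (-d0 / (K * Lz * E * W)) ?_ ?_ ?_ ?_
      · rw [norm_mul, norm_mul, K1, E1]; simpa using hx
      · rw [norm_mul, norm_mul, L1, E1]; simpa using hy
      · rw [norm_div, norm_neg, norm_mul, norm_mul, norm_mul, K1, L1, E1]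
        rw [one_mul, one_mul, one_mul, div_lt_one (norm_pos_iff.2 hW0)]
        exact hlt
      · have h8 : K * Lz * E * W * (-d0 / (K * Lz * E * W)) = -d0 := by
          field_simp
        have h9 : K * Lz * E * W = K * Lz * E * (d0 + E * dS) - Lz * (d0 + E * dS) * (x * (K * E))
            - K * (d0 + E * dS) * (y * (Lz * E)) + dS * (x * (K * E) * (y * (Lz * E))) := by
          rw [hW]; ring
        linear_combination h8 + (-d0 / (K * Lz * E * W)) * (-h9)
    obtain ⟨x, y, hx, hy, h10⟩ := h3b (d0 + E * dS) (E * dS) hz1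
    have h11 : (d0 + E * dS) - E * dS = d0 := by ring
    rw [h11] at h10
    have hcont : Continuous fun r : ℝ =>
        ‖(d0 + E * dS) * (1 - (r : ℂ) * x - (r : ℂ) * y) + (E * dS) * ((r : ℂ) * x * ((r : ℂ) * y))‖ := by
      fun_prop
    have h12 : ∀ r ∈ Set.Ico (0 : ℝ) 1,
        ‖(d0 + E * dS) * (1 - (r : ℂ) * x - (r : ℂ) * y) + (E * dS) * ((r : ℂ) * x * ((r : ℂ) * y))‖ ≤ ‖d0‖ := by
      intro r hr
      have hr1 : ∀ w : ℂ, ‖w‖ ≤ 1 → ‖(r : ℂ) * w‖ < 1 := by
        intro w hw
        rw [norm_mul, Complex.norm_real, Real.norm_of_nonneg hr.1]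
        nlinarith [hr.1, hr.2, norm_nonneg w]
      exact h7 _ _ (hr1 x hx) (hr1 y hy)
    have h13 : (1 : ℝ) ∈ closure (Set.Ico (0 : ℝ) 1) := by
      rw [closure_Ico (by norm_num)]
      exact ⟨zero_le_one, le_refl _⟩
    have h14 : ‖(d0 + E * dS) * (1 - ((1 : ℝ) : ℂ) * x - ((1 : ℝ) : ℂ) * y) +
        (E * dS) * (((1 : ℝ) : ℂ) * x * (((1 : ℝ) : ℂ) * y))‖ ≤ ‖d0‖ :=
      closure_minimal h12 (isClosed_le hcont continuous_const) h13
    rw [Complex.ofReal_one, one_mul, one_mul] at h14
    exact absurd h14 (not_le.2 h10)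

end Pool.Agent.B5.H16
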