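import Pool.Agent.Lib.MP_b5021c_nt.IfaceS2
import Pool.Agent.Lib.MP_b5021c_nt.B.H40.LoadBase

/-!
# Board b5, row LSV (stage 2): the loads in class `V`
-/

namespace Pool.Agent.B5.H16

open Polynomial
open Pool.Agent.MP_b5021c_nt (Eis)
open Pool.Agent.B5.H40 (exists_normal to_poly uT add_load)

/-- Values on the unit circle. -/
theorem lsv_evL (hE : EvRS) (n : ℤ) (z : ℂ) (hz : ‖z‖ = 1) :
    ∃ t : ℂ, ‖t‖ = 1 ∧ ∀ q : Eis[X], evL z (LaurentPolynomial.T n * toLaurent q) =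
      t * (q.map (Coef.emb : Eis →+* ℂ)).eval z := by
  obtain ⟨w, rfl⟩ : ∃ w : Circle, (w : ℂ) = z := ⟨⟨z, mem_sphere_zero_iff_norm.mpr hz⟩, rfl⟩
  refine ⟨(((Circle.toUnits w) ^ n : ℂˣ) : ℂ), ?_, ?_⟩
  · rw [Units.val_zpow_eq_zpow_val, norm_zpow]
    have : ‖((Circle.toUnits w : ℂˣ) : ℂ)‖ = 1 := Circle.norm_coe w
    rw [this, one_zpow]
  · intro q
    rw [(hE Eis).1 w, map_mul]
    unfold evR
    rw [LaurentPolynomial.eval₂_T, LaurentPolynomial.eval₂_toLaurent, eval_map]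
    rfl

/-- A load times `F`, as a polynomial with the shift of `Q`. -/
theorem lsv_load (n m : ℤ) (f : Eis[X]) (u : Eisˣ) :
    ((uT u (n - m) : (RO Eis)ˣ) : RO Eis) * (LaurentPolynomial.T m * toLaurent f) =
      LaurentPolynomial.T n * toLaurent (C (u : Eis) * f) := by
  have h1 := add_load (0 : Eis[X]) f n m u 0
  rw [map_zero, mul_zero, zero_add, zero_add, Nat.cast_zero, add_zero, pow_zero, mul_one] at h1
  exact h1

/-- The mean of a load. -/
theorem lsv_mn (hE : EvRS) (hM : MevS) (n m : ℤ) (q f : Eis[X])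
    (hq : ∀ z : ℂ, ‖z‖ ≤ 1 → (q.map (Coef.emb : Eis →+* ℂ)).eval z ≠ 0) (u : Eisˣ) :
    ‖mn (((uT u (n - m) : (RO Eis)ˣ) : RO Eis) * (LaurentPolynomial.T m * toLaurent f))
      (LaurentPolynomial.T n * toLaurent q)‖ =
      ‖(Coef.emb (f.coeff 0) : ℂ)‖ / ‖(Coef.emb (q.coeff 0) : ℂ)‖ := by
  rw [lsv_load]
  have h1 : mn (LaurentPolynomial.T n * toLaurent (C (u : Eis) * f))
      (LaurentPolynomial.T n * toLaurent q) =
      Real.circleAverage (fun z => ((C (u : Eis) * f).map (Coef.emb : Eis →+* ℂ)).eval z /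
        (q.map (Coef.emb : Eis →+* ℂ)).eval z) 0 1 := by
    unfold mn
    apply Real.circleAverage_congr_sphere
    intro z hz
    have hz1 : ‖z‖ = 1 := by
      rw [abs_one] at hz
      exact mem_sphere_zero_iff_norm.mp hz
    obtain ⟨t, ht, h⟩ := lsv_evL hE n z hz1
    have ht0 : t ≠ 0 := by
      intro h0
      rw [h0, norm_zero] at ht
      exact zero_ne_one ht
    change evL z _ / evL z _ = _
    rw [h, h, mul_div_mul_left _ _ ht0]
  have hu1 : ‖(Coef.emb (u : Eis) : ℂ)‖ = 1 :=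
    Pool.Agent.MP_b5021c_nt.Eis.norm_emb_unit u.isUnit
  rw [h1, hM _ _ hq, ← coeff_zero_eq_eval_zero, ← coeff_zero_eq_eval_zero, coeff_map, coeff_map,
    coeff_C_mul, map_mul, norm_div, norm_mul, hu1, one_mul]

/-- The Mahler measure of `T^m f` is at least `|f(0)|`. -/
theorem lsv_M (hE : EvRS) (hA : A6S) (m : ℤ) (f : Eis[X]) (hf : f.coeff 0 ≠ 0) :
    ‖(Coef.emb (f.coeff 0) : ℂ)‖ ≤ M (LaurentPolynomial.T m * toLaurent f) := by
  have h0 : (Coef.emb (f.coeff 0) : ℂ) ≠ 0 := by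
    intro h
    have := Coef.one_le _ hf
    rw [h, norm_zero] at this
    linarith
  have hp : (f.map (Coef.emb : Eis →+* ℂ)).coeff 0 ≠ 0 := by rwa [coeff_map]
  have hp0 : f.map (Coef.emb : Eis →+* ℂ) ≠ 0 := by
    intro h
    rw [h, coeff_zero] at hp
    exact hp rfl
  have h1 : (f.map (Coef.emb : Eis →+* ℂ)).trailingCoeff = Coef.emb (f.coeff 0) := by
    have h2 : (f.map (Coef.emb : Eis →+* ℂ)).natTrailingDegree = 0 := by
      rw [natTrailingDegree_eq_zero]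
      exact Or.inr hp
    unfold trailingCoeff
    rw [h2, coeff_map]
  have h3 := hA (f.map (Coef.emb : Eis →+* ℂ))
  rw [h1] at h3
  refine h3.trans (le_of_eq ?_)
  rw [Polynomial.mahlerMeasure, if_pos hp0, M, Polynomial.logMahlerMeasure_def]
  congr 1
  apply Real.circleAverage_congr_sphere
  intro z hz
  have hz1 : ‖z‖ = 1 := by
    rw [abs_one] at hz
    exact mem_sphere_zero_iff_norm.mp hz
  obtain ⟨t, ht, h⟩ := lsv_evL hE m z hz1
  change _ = Real.log ‖evL z _‖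
  rw [h, norm_mul, ht, one_mul]

/-- Row LSV. -/
theorem lsv (hVZ : VZS) (hB : BstS) (hM : MevS) (hA : A6S) (hE : EvRS) : LsvS := by
  intro N Q F hQ hF hnz hle hne
  obtain ⟨hN1, n, q, rfl, hqN, hqz⟩ := hQ
  obtain ⟨m, f, rfl, hf0⟩ := exists_normal F hF
  obtain ⟨hnz', hle', hne'⟩ := to_poly n m q f hnz hle hne
  have hqcl : ∀ z : ℂ, ‖z‖ ≤ 1 → (q.map (Coef.emb : Eis →+* ℂ)).eval z ≠ 0 := by
    intro z hz
    rcases lt_or_eq_of_le hz with h1 | h1
    · exact hqz z h1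
    · exact hnz' z h1
  have hlt := hVZ _ _ hqcl hle' hne'
  -- means and measure
  have hmn := fun u : Eisˣ => lsv_mn hE hM n m q f hqcl u
  have hMF := lsv_M hE hA m f hf0
  -- constant terms
  obtain ⟨x, hx⟩ : ∃ x : ℂ, x = Coef.emb (q.coeff 0) := ⟨_, rfl⟩
  obtain ⟨y, hy⟩ : ∃ y : ℂ, y = Coef.emb (f.coeff 0) := ⟨_, rfl⟩
  have hxN : ‖x‖ = N := by rw [hx]; exact hqN
  have hy1 : 1 ≤ ‖y‖ := by rw [hy]; exact Coef.one_le _ hf0
  rw [← hy] at hMF
  rw [← hy, ← hx, hxN] at hmn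
  have hyN : ‖y‖ < N := by
    have h1 := hlt 0 (by simp)
    rw [← coeff_zero_eq_eval_zero, ← coeff_zero_eq_eval_zero, coeff_map, coeff_map, ← hx, ← hy,
      hxN] at h1
    exact h1
  -- every unit gives class `V`
  have key : ∀ u : Eisˣ, ClassV ‖x + Pool.Agent.MP_b5021c_nt.Eis.emb (u : Eis) * y‖
      (LaurentPolynomial.T n * toLaurent q + ((uT u (n - m) : (RO Eis)ˣ) : RO Eis) *
        (LaurentPolynomial.T m * toLaurent f)) := by
    intro u
    have hu1 : ‖(Coef.emb (u : Eis) : ℂ)‖ = 1 :=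
      Pool.Agent.MP_b5021c_nt.Eis.norm_emb_unit u.isUnit
    have h1 := add_load q f n m u 0
    rw [Nat.cast_zero, add_zero, pow_zero, mul_one] at h1
    rw [h1]
    have hc : Coef.emb ((q + C (u : Eis) * f).coeff 0) =
        x + Pool.Agent.MP_b5021c_nt.Eis.emb (u : Eis) * y := by
      rw [coeff_add, coeff_C_mul, map_add, map_mul, hx, hy]
      rfl
    have hz : ∀ z : ℂ, ‖z‖ < 1 → ((q + C (u : Eis) * f).map Coef.emb).eval z ≠ 0 := by
      intro z hz h0
      rw [Polynomial.map_add, Polynomial.map_mul, map_C, eval_add, eval_mul, eval_C] at h0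
      have h2 : (q.map (Coef.emb : Eis →+* ℂ)).eval z =
          -(Coef.emb (u : Eis) * (f.map (Coef.emb : Eis →+* ℂ)).eval z) :=
        eq_neg_of_add_eq_zero_left h0
      have h3 := hlt z hz
      rw [h2, norm_neg, norm_mul, hu1, one_mul] at h3
      exact lt_irrefl _ h3
    refine ⟨?_, n, q + C (u : Eis) * f, rfl, by rw [hc], hz⟩
    have h4 : (q + C (u : Eis) * f).coeff 0 ≠ 0 := by
      intro h5
      have h6 := hz 0 (by simp)
      rw [← coeff_zero_eq_eval_zero, coeff_map, h5, map_zero] at h6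
      exact h6 rfl
    rw [← hc]
    exact Coef.one_le _ h4
  -- the formula for the new constant coefficient
  have key2 : ∀ w : Eis, IsUnit w → ‖x + Pool.Agent.MP_b5021c_nt.Eis.emb w * y‖ ^ 2 =
      ‖x‖ ^ 2 + ‖y‖ ^ 2 -
        2 * (Pool.Agent.MP_b5021c_nt.Eis.emb w * (-(y * (starRingEnd ℂ) x))).re := by
    intro w hw
    have hw1 := Pool.Agent.MP_b5021c_nt.Eis.norm_emb_unit hw
    have h3 := Complex.normSq_add x (Pool.Agent.MP_b5021c_nt.Eis.emb w * y)
    rw [Complex.normSq_eq_norm_sq, Complex.normSq_eq_norm_sq, Complex.normSq_eq_norm_sq,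
      norm_mul, hw1, one_mul] at h3
    rw [h3]
    have h4 : (x * (starRingEnd ℂ) (Pool.Agent.MP_b5021c_nt.Eis.emb w * y)).re =
        (Pool.Agent.MP_b5021c_nt.Eis.emb w * (y * (starRingEnd ℂ) x)).re := by
      rw [← Complex.conj_re (x * (starRingEnd ℂ) (Pool.Agent.MP_b5021c_nt.Eis.emb w * y)),
        map_mul, Complex.conj_conj]
      congr 1; ring
    rw [h4, mul_neg, Complex.neg_re]
    ring
  obtain ⟨u, v, w, hu, hv, huv, hw1, hw2, h1, h2⟩ := hB (-(y * (starRingEnd ℂ) x))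
  have hnn : ‖-(y * (starRingEnd ℂ) x)‖ = N * ‖y‖ := by
    rw [norm_neg, norm_mul, Complex.norm_conj, hxN, mul_comm]
  rw [hnn] at h1 h2
  have k1 := key2 u hu
  have k2 := key2 v hv
  rw [hxN] at k1 k2
  have hs3 : (1.73 : ℝ) ≤ Real.sqrt 3 := by
    apply Real.le_sqrt_of_sq_le; norm_num
  have hNy : 0 ≤ N * ‖y‖ := by positivity
  have hN0 : 0 < N := by linarith
  rcases le_or_gt ‖y‖ (N / 4) with hc | hc
  · left
    have hb : (‖y‖ - 1) * (N - 1 - ‖y‖) ≥ 0 := mul_nonneg (by linarith) (by linarith)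
    refine ⟨uT hu.unit (n - m), uT hv.unit (n - m), ⟨w, ?_, hw1, hw2⟩, ?_, ?_, ?_⟩
    · change LaurentPolynomial.C u * LaurentPolynomial.T (n - m) =
        LaurentPolynomial.C w * (LaurentPolynomial.C v * LaurentPolynomial.T (n - m))
      rw [huv, map_mul, mul_assoc]
    · rw [hmn]
      exact div_le_div_of_nonneg_right hy1 hN0.le
    · rw [hmn, div_le_iff₀ hN0]
      linarith
    · rintro e (rfl | rfl)
      · refine ⟨_, ?_, key hu.unit⟩
        change ‖x + Pool.Agent.MP_b5021c_nt.Eis.emb u * y‖ ^ 2 ≤ _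
        rw [k1]
        nlinarith
      · refine ⟨_, ?_, key hv.unit⟩
        change ‖x + Pool.Agent.MP_b5021c_nt.Eis.emb v * y‖ ^ 2 ≤ _
        rw [k2]
        nlinarith
  · right
    refine ⟨lt_of_lt_of_le hc hMF, uT hu.unit (n - m), _, ?_, key hu.unit⟩
    change ‖x + Pool.Agent.MP_b5021c_nt.Eis.emb u * y‖ ≤ _
    apply le_of_sq_le_sq _ (by positivity)
    have h4 : (‖y‖ - N / 4) * (N - ‖y‖) ≥ 0 := mul_nonneg (by linarith) (by linarith)
    have h5 : 1.73 / 2 * (N * ‖y‖) ≤ Real.sqrt 3 / 2 * (N * ‖y‖) := by nlinarith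
    have h6 : N * N / 4 ≤ N * ‖y‖ := by nlinarith
    rw [k1]
    nlinarith

end Pool.Agent.B5.H16
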