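import Pool.Agent.Lib.MP_b5021c_nt.IfaceS4
import Pool.Agent.Lib.MP_b5021c_nt.B.H16.Lsv

/-!
# Board b5, row LV2 (stage 2, final form): the loads in class `V`, `N ≥ 200`
-/

namespace Pool.Agent.B5.H16

open Polynomial
open Pool.Agent.MP_b5021c_nt (Eis)
open Pool.Agent.B5.H40 (exists_normal to_poly uT add_load)

/-- Floor estimate. -/
theorem lv2_floor {a N : ℝ} (h : a ≤ N - 1 / 2) : (⌊2 * a⌋ : ℝ) + 1 ≤ 2 * N := by
  have h1 := Int.floor_le (2 * a)
  linarith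

/-- Floor estimate, natural `N`. -/
theorem lv2_floor' {a N : ℝ} (n : ℕ) (hn : N = n) (h : a < N) : (⌊2 * a⌋ : ℝ) + 1 ≤ 2 * N := by
  have h1 : ⌊2 * a⌋ < 2 * (n : ℤ) := by
    rw [Int.floor_lt]
    push_cast
    rw [← hn]
    linarith
  have h2 : ⌊2 * a⌋ + 1 ≤ 2 * (n : ℤ) := h1
  have h3 : ((⌊2 * a⌋ + 1 : ℤ) : ℝ) ≤ ((2 * (n : ℤ) : ℤ) : ℝ) := by exact_mod_cast h2
  push_cast at h3
  rw [hn]
  exact h3

/-- Row LV2. -/
theorem lv2 (hVZ : VZS) (hB : Bs2S) (hM : MevS) (hA : A6S) (hE : EvRS) : Lv2S := by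
  intro N Q F hN200 hQ hF hnz hle hne
  obtain ⟨hN1, n, q, rfl, hqN, hqz⟩ := hQ
  obtain ⟨m, f, rfl, hf0⟩ := exists_normal F hF
  obtain ⟨hnz', hle', hne'⟩ := to_poly n m q f hnz hle hne
  have hqcl : ∀ z : ℂ, ‖z‖ ≤ 1 → (q.map (Coef.emb : Eis →+* ℂ)).eval z ≠ 0 := by
    intro z hz
    rcases lt_or_eq_of_le hz with h1 | h1
    · exact hqz z h1
    · exact hnz' z h1
  have hlt := hVZ _ _ hqcl hle' hne'
  -- means and measure
  have hmn := fun u : Eisˣ => lsv_mn hE hM n m q f hqcl u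
  have hMF := lsv_M hE hA m f hf0
  -- constant terms
  obtain ⟨x, hx⟩ : ∃ x : ℂ, x = Coef.emb (q.coeff 0) := ⟨_, rfl⟩
  obtain ⟨y, hy⟩ : ∃ y : ℂ, y = Coef.emb (f.coeff 0) := ⟨_, rfl⟩
  have hxN : ‖x‖ = N := by rw [hx]; exact hqN
  have hy1 : 1 ≤ ‖y‖ := by rw [hy]; exact Coef.one_le _ hf0
  rw [← hy] at hMF
  rw [← hy, ← hx, hxN] at hmn
  have hyN : ‖y‖ < N := by
    have h1 := hlt 0 (by simp)
    rw [← coeff_zero_eq_eval_zero, ← coeff_zero_eq_eval_zero, coeff_map, coeff_map, ← hx, ← hy,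
      hxN] at h1
    exact h1
  -- every unit gives class `V`
  have key : ∀ u : Eisˣ, ClassV ‖x + Pool.Agent.MP_b5021c_nt.Eis.emb (u : Eis) * y‖
      (LaurentPolynomial.T n * toLaurent q + ((uT u (n - m) : (RO Eis)ˣ) : RO Eis) *
        (LaurentPolynomial.T m * toLaurent f)) := by
    intro u
    have hu1 : ‖(Coef.emb (u : Eis) : ℂ)‖ = 1 :=
      Pool.Agent.MP_b5021c_nt.Eis.norm_emb_unit u.isUnit
    have h1 := add_load q f n m u 0
    rw [Nat.cast_zero, add_zero, pow_zero, mul_one] at h1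
    rw [h1]
    have hc : Coef.emb ((q + C (u : Eis) * f).coeff 0) =
        x + Pool.Agent.MP_b5021c_nt.Eis.emb (u : Eis) * y := by
      rw [coeff_add, coeff_C_mul, map_add, map_mul, hx, hy]
      rfl
    have hz : ∀ z : ℂ, ‖z‖ < 1 → ((q + C (u : Eis) * f).map Coef.emb).eval z ≠ 0 := by
      intro z hz h0
      rw [Polynomial.map_add, Polynomial.map_mul, map_C, eval_add, eval_mul, eval_C] at h0
      have h2 : (q.map (Coef.emb : Eis →+* ℂ)).eval z =
          -(Coef.emb (u : Eis) * (f.map (Coef.emb : Eis →+* ℂ)).eval z) :=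
        eq_neg_of_add_eq_zero_left h0
      have h3 := hlt z hz
      rw [h2, norm_neg, norm_mul, hu1, one_mul] at h3
      exact lt_irrefl _ h3
    refine ⟨?_, n, q + C (u : Eis) * f, rfl, by rw [hc], hz⟩
    have h4 : (q + C (u : Eis) * f).coeff 0 ≠ 0 := by
      intro h5
      have h6 := hz 0 (by simp)
      rw [← coeff_zero_eq_eval_zero, coeff_map, h5, map_zero] at h6
      exact h6 rfl
    rw [← hc]
    exact Coef.one_le _ h4
  -- the formula for the new constant coefficient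
  have key2 : ∀ w : Eis, IsUnit w → ‖x + Pool.Agent.MP_b5021c_nt.Eis.emb w * y‖ ^ 2 =
      ‖x‖ ^ 2 + ‖y‖ ^ 2 -
        2 * (Pool.Agent.MP_b5021c_nt.Eis.emb w * (-(y * (starRingEnd ℂ) x))).re := by
    intro w hw
    have hw1 := Pool.Agent.MP_b5021c_nt.Eis.norm_emb_unit hw
    have h3 := Complex.normSq_add x (Pool.Agent.MP_b5021c_nt.Eis.emb w * y)
    rw [Complex.normSq_eq_norm_sq, Complex.normSq_eq_norm_sq, Complex.normSq_eq_norm_sq,
      norm_mul, hw1, one_mul] at h3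
    rw [h3]
    have h4 : (x * (starRingEnd ℂ) (Pool.Agent.MP_b5021c_nt.Eis.emb w * y)).re =
        (Pool.Agent.MP_b5021c_nt.Eis.emb w * (y * (starRingEnd ℂ) x)).re := by
      rw [← Complex.conj_re (x * (starRingEnd ℂ) (Pool.Agent.MP_b5021c_nt.Eis.emb w * y)),
        map_mul, Complex.conj_conj]
      congr 1; ring
    rw [h4, mul_neg, Complex.neg_re]
    ring
  obtain ⟨t, ht⟩ : ∃ t : Eis, t = -(f.coeff 0 * Pool.Agent.MP_b5021c_nt.Eis.conj (q.coeff 0)) :=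
    ⟨_, rfl⟩
  have htE : Pool.Agent.MP_b5021c_nt.Eis.emb t = -(y * (starRingEnd ℂ) x) := by
    rw [ht, map_neg, map_mul, Pool.Agent.MP_b5021c_nt.Eis.emb_conj, hx, hy]
    rfl
  have hnn : ‖Pool.Agent.MP_b5021c_nt.Eis.emb t‖ = N * ‖y‖ := by
    rw [htE, norm_neg, norm_mul, Complex.norm_conj, hxN, mul_comm]
  have hN0 : 0 < N := by linarith
  have ht0 : t ≠ 0 := by
    rintro rfl
    rw [map_zero, norm_zero] at hnn
    have : 0 < N * ‖y‖ := by positivity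
    linarith
  obtain ⟨u, v, w, hu, hv, huv, hw1, hw2, h1, h2⟩ := hB t ht0
  rw [map_mul, htE] at h1 h2
  have hnn' : ‖-(y * (starRingEnd ℂ) x)‖ = N * ‖y‖ := by rw [← htE]; exact hnn
  rw [hnn'] at h1 h2
  have k1 := key2 u hu
  have k2 := key2 v hv
  rw [hxN] at k1 k2
  have hs3 : (1.73 : ℝ) ≤ Real.sqrt 3 := by
    apply Real.le_sqrt_of_sq_le; norm_num
  have hNy : 0 ≤ N * ‖y‖ := by positivity
  have h5 : 1.73 * (N * ‖y‖) ≤ Real.sqrt 3 * (N * ‖y‖) := by nlinarith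
  rcases le_or_gt ‖y‖ (N / 10) with hc | hc
  · left
    have hNy1 : N ≤ N * ‖y‖ := by nlinarith
    have hyy : ‖y‖ ^ 2 ≤ N * ‖y‖ / 10 := by nlinarith
    -- best unit
    have b1 : ‖x + Pool.Agent.MP_b5021c_nt.Eis.emb u * y‖ ≤ N - 1 / 2 := by
      apply le_of_sq_le_sq _ (by linarith)
      rw [k1]
      nlinarith
    -- second best unit
    have b2 : ‖x + Pool.Agent.MP_b5021c_nt.Eis.emb v * y‖ ≤ N - 1 / 5 ∧
        (⌊2 * ‖x + Pool.Agent.MP_b5021c_nt.Eis.emb v * y‖⌋ : ℝ) + 1 ≤ 2 * N := by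
      have small : ‖x + Pool.Agent.MP_b5021c_nt.Eis.emb v * y‖ ≤ N - 1 / 2 →
          ‖x + Pool.Agent.MP_b5021c_nt.Eis.emb v * y‖ ≤ N - 1 / 5 ∧
          (⌊2 * ‖x + Pool.Agent.MP_b5021c_nt.Eis.emb v * y‖⌋ : ℝ) + 1 ≤ 2 * N :=
        fun h => ⟨by linarith, lv2_floor h⟩
      by_cases hU : IsUnit (f.coeff 0)
      · have hy1' : ‖y‖ = 1 := by
          rw [hy]
          exact Pool.Agent.MP_b5021c_nt.Eis.norm_emb_unit hU
        rw [hy1'] at k2
        rw [hy1', mul_one] at h2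
        rcases h2 with h2 | ⟨h2, nn, hnn2⟩
        · apply small
          apply le_of_sq_le_sq _ (by linarith)
          rw [k2]
          nlinarith
        · have hsq : ‖x + Pool.Agent.MP_b5021c_nt.Eis.emb v * y‖ ^ 2 ≤ N ^ 2 - N + 1 := by
            rw [k2]; nlinarith
          have h7 : ‖x + Pool.Agent.MP_b5021c_nt.Eis.emb v * y‖ ≤ N - 1 / 5 := by
            apply le_of_sq_le_sq _ (by linarith)
            nlinarith
          exact ⟨h7, lv2_floor' nn hnn2 (by linarith)⟩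
      · have hy3 : Real.sqrt 3 ≤ ‖y‖ := by
          rw [hy]
          exact Pool.Agent.MP_b5021c_nt.Eis.sqrt3_le hf0 hU
        have h8 : N * ‖y‖ ≤ 2 * (Pool.Agent.MP_b5021c_nt.Eis.emb v * (-(y * (starRingEnd ℂ) x))).re := by
          rcases h2 with h2 | ⟨h2, -⟩ <;> linarith
        apply small
        apply le_of_sq_le_sq _ (by linarith)
        rw [k2]
        have h9 : 1.73 * N ≤ N * ‖y‖ := by nlinarith
        nlinarith
    refine ⟨uT hu.unit (n - m), uT hv.unit (n - m), ⟨w, ?_, hw1, hw2⟩, ?_, ?_, ?_⟩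
    · change LaurentPolynomial.C u * LaurentPolynomial.T (n - m) =
        LaurentPolynomial.C w * (LaurentPolynomial.C v * LaurentPolynomial.T (n - m))
      rw [huv, map_mul, mul_assoc]
    · rw [hmn]
      exact div_le_div_of_nonneg_right hy1 hN0.le
    · rw [hmn, div_le_iff₀ hN0]
      linarith
    · rintro e (rfl | rfl)
      · exact ⟨_, by change ‖x + Pool.Agent.MP_b5021c_nt.Eis.emb u * y‖ ≤ _; linarith,
          lv2_floor b1, key hu.unit⟩
      · exact ⟨_, b2.1, b2.2, key hv.unit⟩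
  · right
    refine ⟨lt_of_lt_of_le hc hMF, uT hu.unit (n - m), _, ?_, key hu.unit⟩
    change ‖x + Pool.Agent.MP_b5021c_nt.Eis.emb u * y‖ ≤ _
    apply le_of_sq_le_sq _ (by positivity)
    have h4 : (‖y‖ - N / 10) * (N - ‖y‖) ≥ 0 := mul_nonneg (by linarith) (by linarith)
    have h6 : N * N / 10 ≤ N * ‖y‖ := by nlinarith
    rw [k1]
    nlinarith

end Pool.Agent.B5.H16
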