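import Pool.Agent.Lib.MP_b5021c_nt.IfaceE2

/-!
# Board b5, row E2_TPI: the sum of the masses of a terminal pair
-/

namespace Pool.Agent.B5.H16

open Pool.Agent.B5 Pool.Agent.B5.H71 AddMonoidAlgebra

variable {O : Type} [CommRing O] [Coef O] {L : Type} [AddCommGroup L]

theorem tpi_sharp_coeff (G : AO O L) : (sharp G).coeff 0 = rsh (G.coeff 0) := by
  have h1 : (sharp G).coeff = Finsupp.mapDomain (negAddMonoidHom : L →+ L)
      (AddMonoidAlgebra.mapRingHom L rsh G).coeff := rfl
  have hinj : Function.Injective (negAddMonoidHom : L →+ L) := fun x y h => by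
    simpa using h
  have h2 : (0 : L) = (negAddMonoidHom : L →+ L) 0 := by simp
  rw [h1]
  conv_lhs => rw [h2]
  rw [Finsupp.mapDomain_apply hinj]
  simp

theorem tpi_mul_cst (c : RO O) (G : AO O L) (a : L) : (G * cst c).coeff a = G.coeff a * c := by
  rw [mul_comm, cst_mul_coeff, mul_comm]

theorem tpi (hTpx : TpxS) (hTpc : TpcS) (hEvR : EvRS) : TpiS := by
  intro O _ _ _ _ L _ _ _ r lam B c n b f e q hT hR hRec z hz
  obtain ⟨R, hB, h2⟩ := hTpx O L r lam B c n b f e q hT hR hRec
  have hB0 := hTpc O L lam B R n b f e q hT.dual hT.pb hT.pB hB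
  have hem : (∑ i, em (Ker (f i)) (q i) : AO O L).coeff 0 = ∑ i, (q i).coeff 0 := by
    rw [coeff_sum, Finsupp.finset_sum_apply]
    exact Finset.sum_congr rfl fun i _ => em_coeff (Ker (f i)) (q i) 0
  have h3 := congrArg (fun F : AO O L => F.coeff 0) h2
  simp only [coeff_add, Finsupp.add_apply, tpi_mul_cst, hem, tpi_sharp_coeff] at h3
  have hr : ((r : AO O L)).coeff 0 = (r : RO O) := by
    have h8 : (r : AO O L) = cst (L := L) (r : RO O) := by
      have h9 := map_natCast (AddMonoidAlgebra.singleZeroRingHom (R := RO O) (M := L)) r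
      rw [← h9]
      rfl
    have h10 := tpi_mul_cst (L := L) (r : RO O) (1 : AO O L) 0
    rw [one_mul] at h10
    rw [h8, h10]
    have h11 : (1 : AO O L).coeff 0 = 1 := by
      rw [AddMonoidAlgebra.one_def, coeff_single]
      exact Finsupp.single_eq_same
    rw [h11, one_mul]
  rw [hr] at h3
  -- evaluate at z
  have h4 := congrArg (evR z) h3
  simp only [map_add, map_mul, map_sum, map_natCast, (hEvR O).2.2.1] at h4
  set C := evR z c with hC
  set Z := evR z (R.coeff 0) with hZ
  have hq : ∀ i, evR z ((q i).coeff 0) * (starRingEnd ℂ) C =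
      (starRingEnd ℂ) (evR z ((q i).coeff 0)) * C := by
    intro i
    have h5 := congrArg (fun F : AO O (Ker (f i)) => evR z (F.coeff 0)) (hRec i)
    simp only [tpi_mul_cst, tpi_sharp_coeff, map_mul, (hEvR O).2.2.1] at h5
    exact h5
  have hB1 : evR z (B.coeff 0) = ∑ i, evR z ((q i).coeff 0) + Z := by
    rw [hB0, map_add, map_sum]
  have hCc : (starRingEnd ℂ) C ≠ 0 := (map_ne_zero _).mpr hz
  have h6 : ∑ i, evR z ((q i).coeff 0) / C + Z / C + (starRingEnd ℂ) (Z / C) = r := by
    rw [map_div₀, ← Finset.sum_div]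
    field_simp
    linear_combination h4
  have h7 := congrArg Complex.re h6
  simp only [Complex.add_re, Complex.conj_re, Complex.re_sum, Complex.natCast_re] at h7
  rw [hB1, add_div, Finset.sum_div, Complex.add_re, Complex.re_sum]
  linarith

end Pool.Agent.B5.H16
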